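import Mathlib
import Pool.Agent.Lib_helper67.FX.Final

/-!
# Kalai's inequality for sets with a small Radon set or with few extra points

For a finite nonempty set `X` in `ℝ^d`, with no position assumption, the sum of the dimensions of
the Tverberg sets is nonnegative if `dim T_2(X) ≤ 1`, if `|X| ≤ dim aff X + 5`, or if `T_3(X)` is
empty and `dim aff X ≤ 4`.
-/

open Pool.Agent

theorem Pool.Agent.Results.MP_de0e04_co.FewExtraPoints.result {d : ℕ} (X : Finset (Fin d → ℝ))
    (hX : X.Nonempty)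
    (h : KL.dimT 2 X ≤ 1 ∨ (X.card : ℤ) ≤ KL.adim (X : Set (Fin d → ℝ)) + 5 ∨
      (KL.T 3 X = ∅ ∧ KL.adim (X : Set (Fin d → ℝ)) ≤ 4)) :
    0 ≤ ∑ r ∈ Finset.Icc 1 X.card, KL.dimT r X :=
  FX.kalai hX h
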