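import Mathlib
import Pool.Agent.Lib_helper20.GC2.Nums
import Pool.Agent.Lib_helper5.GC2.Fin

/-!
# Reay's conjecture and Kalai's inequality in general position

For a finite set `X` of points in general position in `ℝ^d` (all subsets of at most `d + 1` points
are affinely independent): at least `(r - 1)(d + 1) + k + 1` points have a Tverberg set `T_r(X)` of
dimension at least `k`, and the sum of the dimensions of the sets `T_r(X)` is not negative.
-/

open Pool.Agent

theorem Pool.Agent.Results.MP_de0e04_co.FullReay.result {d : ℕ} (X : Finset (Fin d → ℝ))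
    (hX : ∀ S ⊆ X, S.card ≤ d + 1 →
      AffineIndependent ℝ (fun x : {x // x ∈ S} => (x : Fin d → ℝ))) :
    (∀ r k : ℕ, 1 ≤ r → k ≤ d → (r - 1) * (d + 1) + k + 1 ≤ X.card →
      (k : ℤ) ≤ KL.dimT r X) ∧
    0 ≤ ∑ r ∈ Finset.Icc 1 X.card, KL.dimT r X :=
  ⟨fun _ _ hr hk hn => RY.full_reay_of GC2.nums hX hr hk hn, RY.full_kalai_of GC2.nums hX⟩
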