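import Mathlib
import Pool.Agent.Lib_helper10.HC.Main

/-!
# Half of Kalai's inequality

For every finite set `X` in `ℝ^d`, with no position assumption, the sum of `1 + dim T_r(X)` over
`1 ≤ r ≤ |X|` is at least `|X| / 2`.
-/

open Pool.Agent

theorem Pool.Agent.Results.MP_de0e04_co.HalfCascade.result {d : ℕ} (X : Finset (Fin d → ℝ)) :
    (X.card : ℤ) ≤ 2 * ∑ r ∈ Finset.Icc 1 X.card, (1 + KL.dimT r X) :=
  HC.half_cascade X
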