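import Mathlib
import Pool.Agent.Lib_helper86.KL.Geo

/-!
# Kalai's conjecture on dimensions of Tverberg sets, when `|X| ≥ r (dim aff X + 1)` and
`T_{r+1}(X)` is empty

Then `X` is a union of `r` full-dimensional simplices with a common relative interior point and
the sum of the dimensions of the Tverberg sets is zero.
-/

open Pool.Agent

theorem Pool.Agent.Results.MP_de0e04_co.TightTverberg.result {d : ℕ} (X : Finset (Fin d → ℝ))
    (hX : X.Nonempty) (r : ℕ) (hr : 1 ≤ r) (hT : KL.T (r + 1) X = ∅)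
    (hn : (r : ℤ) * (KL.adim (X : Set (Fin d → ℝ)) + 1) ≤ X.card) :
    (X.card : ℤ) = r * (KL.adim (X : Set (Fin d → ℝ)) + 1) ∧
    (∃ c : (Fin d → ℝ) → Fin r,
      (∀ j, ((X.filter fun x => c x = j).card : ℤ) = KL.adim (X : Set (Fin d → ℝ)) + 1) ∧
      (∀ j, AffineIndependent ℝ (fun x : {x // x ∈ X ∧ c x = j} => x.1)) ∧
      (∃ (p : Fin d → ℝ) (w : (Fin d → ℝ) → ℝ), (∀ x ∈ X, 0 < w x) ∧
        ∀ j, ∑ x ∈ X.filter (fun x => c x = j), w x = 1 ∧
          ∑ x ∈ X.filter (fun x => c x = j), w x • x = p) ∧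
      KL.adim (KL.cell X c) = KL.adim (X : Set (Fin d → ℝ))) ∧
    (∀ j, 1 ≤ j → j ≤ r → KL.dimT j X = KL.adim (X : Set (Fin d → ℝ))) ∧
    (∀ j, r < j → KL.dimT j X = -1) ∧
    ∑ j ∈ Finset.Icc 1 X.card, KL.dimT j X = 0 :=
  KL.kalai hr hX hT hn
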